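import Mathlib

set_option autoImplicit false

namespace Pool.Agent.Helper85.XV

/-- V0 -/
theorem prod_max_le {ι : Type*} (s : Finset ι) (a : ι → ℝ) (Z : ℝ) (hZ0 : 0 ≤ Z) (hZ1 : Z ≤ 1)
    (h0 : ∀ j ∈ s, 0 ≤ a j) (h1 : ∀ j ∈ s, a j ≤ 1) :
    ∏ j ∈ s, max (a j) Z ≤ max (∏ j ∈ s, a j) Z := by
  classical
  induction s using Finset.induction_on with
  | empty => simp
  | insert j s hj ih =>
    have h0' : ∀ j ∈ s, 0 ≤ a j := fun i hi => h0 i (Finset.mem_insert_of_mem hi)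
    have h1' : ∀ j ∈ s, a j ≤ 1 := fun i hi => h1 i (Finset.mem_insert_of_mem hi)
    have hj0 := h0 j (Finset.mem_insert_self _ _)
    have hj1 := h1 j (Finset.mem_insert_self _ _)
    have hP0 : 0 ≤ ∏ j ∈ s, a j := Finset.prod_nonneg h0'
    have hP1 : ∏ j ∈ s, a j ≤ 1 := Finset.prod_le_one h0' h1'
    rw [Finset.prod_insert hj, Finset.prod_insert hj]
    refine (mul_le_mul_of_nonneg_left (ih h0' h1') (le_max_of_le_left hj0)).trans ?_
    rcases max_cases (a j) Z with ⟨e, _⟩ | ⟨e, _⟩ <;>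
      rcases max_cases (∏ j ∈ s, a j) Z with ⟨e', _⟩ | ⟨e', _⟩ <;> rw [e, e']
    · exact le_max_left _ _
    · exact le_max_of_le_right (by nlinarith)
    · exact le_max_of_le_right (by nlinarith)
    · exact le_max_of_le_right (by nlinarith)

/-- V1: union over the maps `a : L → {j ≠ i}`, one fixed entry `x i = x₀`. -/
theorem union_count {α : Type*} {k : ℕ} (T : Fin k → Finset α) (i : Fin k) (x₀ : α)
    (L : Finset ℕ) (hL : ∀ l ∈ L, 1 ≤ l) (P : ℕ → α → Prop) (A Z : ℝ) (hA : 0 ≤ A)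
    (hZ0 : 0 ≤ Z) (hZ1 : Z ≤ 1)
    (hc : ∀ j, j ≠ i → ∀ L' ⊆ L, (({y | y ∈ T j ∧ ∀ l ∈ L', P l y}.ncard : ℕ) : ℝ) ≤
      A ^ L'.card * max (1 / ∏ l ∈ L', (l : ℝ)) Z * (T j).card) :
    (({x : Fin k → α | x i = x₀ ∧ (∀ j, j ≠ i → x j ∈ T j) ∧
      ∀ l ∈ L, ∃ j, j ≠ i ∧ P l (x j)}.ncard : ℕ) : ℝ) ≤
      ((k : ℝ) * A) ^ L.card * max (1 / ∏ l ∈ L, (l : ℝ)) Z *
        ∏ j ∈ Finset.univ.erase i, ((T j).card : ℝ) := by
  classical
  -- the fibres
  let Lf : (L → Fin k) → Fin k → Finset ℕ := fun a j =>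
    (Finset.univ.filter (fun l : L => a l = j)).image Subtype.val
  let U : (L → Fin k) → Fin k → Finset α := fun a j =>
    if j = i then {x₀} else (T j).filter (fun y => ∀ l ∈ Lf a j, P l y)
  let good : Finset (L → Fin k) := Finset.univ.filter (fun a => ∀ l, a l ≠ i)
  have hsub : {x : Fin k → α | x i = x₀ ∧ (∀ j, j ≠ i → x j ∈ T j) ∧
      ∀ l ∈ L, ∃ j, j ≠ i ∧ P l (x j)} ⊆
      ((good.biUnion fun a => Fintype.piFinset (U a) : Finset (Fin k → α)) : Set (Fin k → α)) := by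
    rintro x ⟨hx0, hxT, hxP⟩
    choose a ha using fun l : L => hxP l l.2
    rw [Finset.mem_coe, Finset.mem_biUnion]
    refine ⟨a, Finset.mem_filter.mpr ⟨Finset.mem_univ _, fun l => (ha l).1⟩, ?_⟩
    rw [Fintype.mem_piFinset]
    intro j
    show x j ∈ (if j = i then {x₀} else (T j).filter (fun y => ∀ l ∈ Lf a j, P l y))
    split_ifs with hj
    · rw [hj, hx0]; exact Finset.mem_singleton_self _
    · rw [Finset.mem_filter]
      refine ⟨hxT j hj, fun l hl => ?_⟩
      obtain ⟨l', hl', rfl⟩ := Finset.mem_image.mp hl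
      have := (Finset.mem_filter.mp hl').2
      rw [← this]
      exact (ha l').2
  have hcard1 : ({x : Fin k → α | x i = x₀ ∧ (∀ j, j ≠ i → x j ∈ T j) ∧
      ∀ l ∈ L, ∃ j, j ≠ i ∧ P l (x j)}.ncard : ℕ) ≤
      ∑ a ∈ good, (Fintype.piFinset (U a)).card := by
    refine (Set.ncard_le_ncard hsub (Finset.finite_toSet _)).trans ?_
    rw [Set.ncard_coe_finset]
    exact Finset.card_biUnion_le
  -- one map
  have hone : ∀ a ∈ good, ((Fintype.piFinset (U a)).card : ℝ) ≤
      A ^ L.card * max (1 / ∏ l ∈ L, (l : ℝ)) Z *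
        ∏ j ∈ Finset.univ.erase i, ((T j).card : ℝ) := by
    intro a ha
    have hai : ∀ l, a l ≠ i := (Finset.mem_filter.mp ha).2
    have hLfi : Lf a i = ∅ := by
      refine Finset.image_eq_empty.mpr (Finset.filter_eq_empty_iff.mpr fun l _ => hai l)
    have hLfsub : ∀ j, Lf a j ⊆ L := by
      intro j l hl
      obtain ⟨l', _, rfl⟩ := Finset.mem_image.mp hl
      exact l'.2
    have hLfcard : ∀ j, (Lf a j).card = (Finset.univ.filter (fun l : L => a l = j)).card :=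
      fun j => Finset.card_image_of_injective _ Subtype.val_injective
    have hLfprod : ∀ j, ∏ l ∈ Lf a j, (l : ℝ) =
        ∏ l ∈ Finset.univ.filter (fun l : L => a l = j), ((l : ℕ) : ℝ) :=
      fun j => Finset.prod_image fun x _ y _ h => Subtype.val_injective h
    have hsum : ∑ j ∈ Finset.univ.erase i, (Lf a j).card = L.card := by
      have h1 : ∑ j, (Lf a j).card = L.card := by
        simp_rw [hLfcard]
        rw [← Finset.card_eq_sum_card_fiberwise (f := a) (s := Finset.univ) (t := Finset.univ)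
          (fun x _ => Finset.mem_coe.mpr (Finset.mem_univ _))]
        rw [Finset.card_univ, Fintype.card_coe]
      rw [← h1, ← Finset.add_sum_erase _ _ (Finset.mem_univ i), hLfi]
      simp
    have hprod : ∏ j ∈ Finset.univ.erase i, ∏ l ∈ Lf a j, (l : ℝ) = ∏ l ∈ L, (l : ℝ) := by
      have h1 : ∏ j, ∏ l ∈ Lf a j, (l : ℝ) = ∏ l ∈ L, (l : ℝ) := by
        simp_rw [hLfprod]
        rw [Finset.prod_fiberwise Finset.univ a (fun l : L => ((l : ℕ) : ℝ))]
        exact Finset.prod_coe_sort L (fun l => (l : ℝ))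
      rw [← h1, ← Finset.mul_prod_erase _ _ (Finset.mem_univ i), hLfi]
      simp
    rw [Fintype.card_piFinset, ← Finset.mul_prod_erase _ _ (Finset.mem_univ i)]
    have hUi : (U a i).card = 1 := by
      show (if i = i then {x₀} else (T i).filter (fun y => ∀ l ∈ Lf a i, P l y) : Finset α).card = 1
      rw [if_pos rfl, Finset.card_singleton]
    rw [hUi, one_mul]
    push_cast
    have hUj : ∀ j ∈ Finset.univ.erase i, ((U a j).card : ℝ) ≤
        A ^ (Lf a j).card * max (1 / ∏ l ∈ Lf a j, (l : ℝ)) Z * (T j).card := by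
      intro j hj
      have hji : j ≠ i := (Finset.mem_erase.mp hj).1
      refine le_trans (le_of_eq ?_) (hc j hji (Lf a j) (hLfsub j))
      congr 1
      rw [← Set.ncard_coe_finset]
      congr 1
      ext y
      show y ∈ (if j = i then {x₀} else (T j).filter (fun y => ∀ l ∈ Lf a j, P l y) : Finset α) ↔ _
      rw [if_neg hji, Finset.mem_filter]
      rfl
    refine (Finset.prod_le_prod (fun _ _ => Nat.cast_nonneg _) hUj).trans ?_
    rw [Finset.prod_mul_distrib, Finset.prod_mul_distrib, Finset.prod_pow_eq_pow_sum, hsum]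
    refine mul_le_mul_of_nonneg_right ?_ (Finset.prod_nonneg fun _ _ => Nat.cast_nonneg _)
    refine mul_le_mul_of_nonneg_left ?_ (pow_nonneg hA _)
    have hl1 : ∀ j, ∀ l ∈ Lf a j, (1 : ℝ) ≤ (l : ℝ) := fun j l hl => by
      exact_mod_cast hL l (hLfsub j hl)
    have hge : ∀ j, (1 : ℝ) ≤ ∏ l ∈ Lf a j, (l : ℝ) := by
      intro j
      calc (1 : ℝ) = ∏ _l ∈ Lf a j, (1 : ℝ) := by simp
        _ ≤ ∏ l ∈ Lf a j, (l : ℝ) :=
          Finset.prod_le_prod (fun _ _ => zero_le_one) (hl1 j)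
    refine (prod_max_le _ _ Z hZ0 hZ1 (fun j _ => ?_) (fun j _ => ?_)).trans ?_
    · have := hge j; positivity
    · rw [div_le_one (by linarith [hge j])]; exact hge j
    · rw [Finset.prod_div_distrib, Finset.prod_const_one, hprod]
  have hgood : (good.card : ℝ) ≤ (k : ℝ) ^ L.card := by
    have : good.card ≤ k ^ L.card := by
      refine (Finset.card_le_univ _).trans (le_of_eq ?_)
      rw [Fintype.card_fun, Fintype.card_fin, Fintype.card_coe]
    exact_mod_cast this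
  calc (({x : Fin k → α | x i = x₀ ∧ (∀ j, j ≠ i → x j ∈ T j) ∧
      ∀ l ∈ L, ∃ j, j ≠ i ∧ P l (x j)}.ncard : ℕ) : ℝ)
      ≤ ∑ a ∈ good, ((Fintype.piFinset (U a)).card : ℝ) := by exact_mod_cast hcard1
    _ ≤ ∑ _a ∈ good, A ^ L.card * max (1 / ∏ l ∈ L, (l : ℝ)) Z *
        ∏ j ∈ Finset.univ.erase i, ((T j).card : ℝ) := Finset.sum_le_sum hone
    _ = (good.card : ℝ) * (A ^ L.card * max (1 / ∏ l ∈ L, (l : ℝ)) Z *
        ∏ j ∈ Finset.univ.erase i, ((T j).card : ℝ)) := by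
          rw [Finset.sum_const, nsmul_eq_mul]
    _ ≤ (k : ℝ) ^ L.card * (A ^ L.card * max (1 / ∏ l ∈ L, (l : ℝ)) Z *
        ∏ j ∈ Finset.univ.erase i, ((T j).card : ℝ)) := by
          refine mul_le_mul_of_nonneg_right hgood ?_
          exact mul_nonneg (mul_nonneg (pow_nonneg hA _) (le_max_of_le_right hZ0))
            (Finset.prod_nonneg fun _ _ => Nat.cast_nonneg _)
    _ = ((k : ℝ) * A) ^ L.card * max (1 / ∏ l ∈ L, (l : ℝ)) Z *
        ∏ j ∈ Finset.univ.erase i, ((T j).card : ℝ) := by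
          rw [mul_pow]; ring

end Pool.Agent.Helper85.XV
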