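import Pool.Agent.Helper85.XV.V1

set_option autoImplicit false

namespace Pool.Agent.Helper85.XV

/-- V2: the sum over `x₀ ∈ T i`. -/
theorem union_tuples {α : Type*} {k : ℕ} (T : Fin k → Finset α) (i : Fin k) (Bd : α → Prop)
    (ℓ : α → Finset ℕ) (P : ℕ → α → Prop) (A Z η : ℝ) (hA : 0 ≤ A)
    (hZ0 : 0 ≤ Z) (hZ1 : Z ≤ 1) (hη0 : 0 ≤ η)
    (hL : ∀ x ∈ T i, ¬ Bd x → ∀ l ∈ ℓ x, 1 ≤ l)
    (hc : ∀ x ∈ T i, ¬ Bd x → ∀ j, j ≠ i → ∀ L' ⊆ ℓ x,
      (({y | y ∈ T j ∧ ∀ l ∈ L', P l y}.ncard : ℕ) : ℝ) ≤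
        A ^ L'.card * max (1 / ∏ l ∈ L', (l : ℝ)) Z * (T j).card)
    (hη : ∀ x ∈ T i, ¬ Bd x →
      ((k : ℝ) * A) ^ (ℓ x).card * max (1 / ∏ l ∈ ℓ x, (l : ℝ)) Z ≤ η) :
    (({x : Fin k → α | (∀ j, x j ∈ T j) ∧ ¬ Bd (x i) ∧
      ∀ l ∈ ℓ (x i), ∃ j, j ≠ i ∧ P l (x j)}.ncard : ℕ) : ℝ) ≤
      η * ∏ j, ((T j).card : ℝ) := by
  classical
  let F : Finset (Fin k → α) := (Fintype.piFinset T).filter (fun x => ¬ Bd (x i) ∧
      ∀ l ∈ ℓ (x i), ∃ j, j ≠ i ∧ P l (x j))
  have hS : {x : Fin k → α | (∀ j, x j ∈ T j) ∧ ¬ Bd (x i) ∧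
      ∀ l ∈ ℓ (x i), ∃ j, j ≠ i ∧ P l (x j)} = (F : Set (Fin k → α)) := by
    ext x
    rw [Finset.mem_coe, Finset.mem_filter, Fintype.mem_piFinset]
    rfl
  rw [hS, Set.ncard_coe_finset]
  have hfib : F.card = ∑ x₀ ∈ T i, (F.filter (fun x => x i = x₀)).card := by
    refine Finset.card_eq_sum_card_fiberwise (s := F) (t := T i)
      (f := fun x : Fin k → α => x i) fun x hx => ?_
    have := (Finset.mem_filter.mp (Finset.mem_coe.mp hx)).1
    exact Finset.mem_coe.mpr (Fintype.mem_piFinset.mp this i)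
  have hR0 : (0 : ℝ) ≤ ∏ j ∈ Finset.univ.erase i, ((T j).card : ℝ) :=
    Finset.prod_nonneg fun _ _ => Nat.cast_nonneg _
  have hone : ∀ x₀ ∈ T i, ((F.filter (fun x => x i = x₀)).card : ℝ) ≤
      η * ∏ j ∈ Finset.univ.erase i, ((T j).card : ℝ) := by
    intro x₀ hx₀
    by_cases hB : Bd x₀
    · have : F.filter (fun x => x i = x₀) = ∅ := by
        refine Finset.filter_eq_empty_iff.mpr fun x hx h => ?_
        have := (Finset.mem_filter.mp hx).2.1
        rw [h] at this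
        exact this hB
      rw [this, Finset.card_empty, Nat.cast_zero]
      exact mul_nonneg hη0 hR0
    · have h1 := union_count T i x₀ (ℓ x₀) (hL x₀ hx₀ hB) P A Z hA hZ0 hZ1 (hc x₀ hx₀ hB)
      have h2 := mul_le_mul_of_nonneg_right (hη x₀ hx₀ hB) hR0
      refine le_trans ?_ (h1.trans h2)
      have hfin : ({x : Fin k → α | x i = x₀ ∧ (∀ j, j ≠ i → x j ∈ T j) ∧
          ∀ l ∈ ℓ x₀, ∃ j, j ≠ i ∧ P l (x j)}).Finite := by
        refine Set.Finite.subset (Finset.finite_toSet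
          (Fintype.piFinset (fun j => if j = i then {x₀} else T j))) ?_
        rintro x ⟨hx0, hxT, -⟩
        rw [Finset.mem_coe, Fintype.mem_piFinset]
        intro j
        split_ifs with hj
        · rw [hj, hx0]; exact Finset.mem_singleton_self _
        · exact hxT j hj
      have h3 : (F.filter (fun x => x i = x₀)).card ≤ {x : Fin k → α | x i = x₀ ∧
          (∀ j, j ≠ i → x j ∈ T j) ∧ ∀ l ∈ ℓ x₀, ∃ j, j ≠ i ∧ P l (x j)}.ncard := by
        rw [← Set.ncard_coe_finset]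
        refine Set.ncard_le_ncard ?_ hfin
        intro x hx
        obtain ⟨hxF, hxi⟩ := Finset.mem_filter.mp (Finset.mem_coe.mp hx)
        obtain ⟨hxT, hxB, hxl⟩ := Finset.mem_filter.mp hxF
        refine ⟨hxi, fun j _ => Fintype.mem_piFinset.mp hxT j, ?_⟩
        rw [hxi] at hxl
        exact hxl
      exact_mod_cast h3
  calc (F.card : ℝ) = ∑ x₀ ∈ T i, ((F.filter (fun x => x i = x₀)).card : ℝ) := by
        rw [hfib]; push_cast; rfl
    _ ≤ ∑ _x₀ ∈ T i, η * ∏ j ∈ Finset.univ.erase i, ((T j).card : ℝ) := Finset.sum_le_sum hone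
    _ = ((T i).card : ℝ) * (η * ∏ j ∈ Finset.univ.erase i, ((T j).card : ℝ)) := by
        rw [Finset.sum_const, nsmul_eq_mul]
    _ = η * ∏ j, ((T j).card : ℝ) := by
        rw [← Finset.mul_prod_erase Finset.univ (fun j => ((T j).card : ℝ)) (Finset.mem_univ i)]
        ring

/-- V3: one bad entry. -/
theorem single_tuples {α : Type*} {k : ℕ} (T : Fin k → Finset α) (i : Fin k) (Bd : α → Prop)
    (η : ℝ) (h : (({y | y ∈ T i ∧ Bd y}.ncard : ℕ) : ℝ) ≤ η * (T i).card) :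
    (({x : Fin k → α | (∀ j, x j ∈ T j) ∧ Bd (x i)}.ncard : ℕ) : ℝ) ≤
      η * ∏ j, ((T j).card : ℝ) := by
  classical
  let U : Fin k → Finset α := fun j => if j = i then (T i).filter Bd else T j
  have hS : {x : Fin k → α | (∀ j, x j ∈ T j) ∧ Bd (x i)} =
      (Fintype.piFinset U : Set (Fin k → α)) := by
    ext x
    rw [Finset.mem_coe, Fintype.mem_piFinset]
    constructor
    · rintro ⟨hT, hB⟩ j
      show x j ∈ (if j = i then (T i).filter Bd else T j)
      split_ifs with hj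
      · subst hj; exact Finset.mem_filter.mpr ⟨hT _, hB⟩
      · exact hT j
    · intro hU
      have hi : x i ∈ (if i = i then (T i).filter Bd else T i) := hU i
      rw [if_pos rfl, Finset.mem_filter] at hi
      refine ⟨fun j => ?_, hi.2⟩
      by_cases hj : j = i
      · rw [hj]; exact hi.1
      · have hj' : x j ∈ (if j = i then (T i).filter Bd else T j) := hU j
        rwa [if_neg hj] at hj'
  rw [hS, Set.ncard_coe_finset, Fintype.card_piFinset,
    ← Finset.mul_prod_erase Finset.univ _ (Finset.mem_univ i),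
    ← Finset.mul_prod_erase Finset.univ (fun j => ((T j).card : ℝ)) (Finset.mem_univ i)]
  have hUi : U i = (T i).filter Bd := if_pos rfl
  have hUj : ∏ j ∈ Finset.univ.erase i, (U j).card = ∏ j ∈ Finset.univ.erase i, (T j).card := by
    refine Finset.prod_congr rfl fun j hj => ?_
    have : U j = T j := if_neg (Finset.mem_erase.mp hj).1
    rw [this]
  have hn : {y | y ∈ T i ∧ Bd y}.ncard = ((T i).filter Bd).card := by
    rw [← Set.ncard_coe_finset]
    congr 1
    ext y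
    rw [Finset.mem_coe, Finset.mem_filter]; rfl
  rw [hn] at h
  rw [hUi, hUj]
  push_cast
  rw [← mul_assoc]
  exact mul_le_mul_of_nonneg_right h (Finset.prod_nonneg fun _ _ => Nat.cast_nonneg _)

end Pool.Agent.Helper85.XV
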