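import Mathlib

set_option autoImplicit false

namespace Pool.Agent.Helper85.XV

/-- V4 -/
theorem asymp {d₀ : ℝ} (h0 : 0 < d₀) : ∃ G : ℕ, 10 ^ 10 ≤ G ∧ ∀ m : ℕ, G ≤ m → ∀ β : ℝ, 1 ≤ β →
    β ≤ (m : ℝ) ^ (4 / 5 : ℝ) → 24 * (m : ℝ) ^ (2 * β) ≤ Real.exp (d₀ * m / 2) := by
  obtain ⟨G0, hG0⟩ := exists_nat_ge ((48 / d₀) ^ (10 : ℕ))
  refine ⟨max (10 ^ 10) G0, le_max_left _ _, fun m hm β hβ1 hβ => ?_⟩
  have hm1 : (10 : ℝ) ^ 10 ≤ m := by exact_mod_cast (le_max_left _ _).trans hm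
  have hm2 : (48 / d₀) ^ (10 : ℕ) ≤ (m : ℝ) := hG0.trans (by exact_mod_cast (le_max_right _ _).trans hm)
  have hm0 : (0 : ℝ) < m := lt_of_lt_of_le (by norm_num) hm1
  have hm1' : (1 : ℝ) ≤ m := le_trans (by norm_num) hm1
  have hlog0 : 0 ≤ Real.log m := Real.log_nonneg hm1'
  have hlog : Real.log m ≤ (m : ℝ) ^ (1 / 10 : ℝ) / (1 / 10 : ℝ) :=
    Real.log_le_rpow_div hm0.le (by norm_num)
  have h10 : 48 / d₀ ≤ (m : ℝ) ^ (1 / 10 : ℝ) := by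
    have h1 : (0 : ℝ) ≤ 48 / d₀ := by positivity
    calc 48 / d₀ = ((48 / d₀) ^ (10 : ℕ)) ^ (1 / 10 : ℝ) := by
          rw [← Real.rpow_natCast, ← Real.rpow_mul h1]; norm_num
      _ ≤ (m : ℝ) ^ (1 / 10 : ℝ) := Real.rpow_le_rpow (by positivity) hm2 (by norm_num)
  have h9 : (1 : ℝ) ≤ (m : ℝ) ^ (9 / 10 : ℝ) := Real.one_le_rpow hm1' (by norm_num)
  have hprod1 : (m : ℝ) ^ (4 / 5 : ℝ) * (m : ℝ) ^ (1 / 10 : ℝ) = (m : ℝ) ^ (9 / 10 : ℝ) := by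
    rw [← Real.rpow_add hm0]; norm_num
  have hprod2 : (m : ℝ) ^ (9 / 10 : ℝ) * (m : ℝ) ^ (1 / 10 : ℝ) = m := by
    rw [← Real.rpow_add hm0]; norm_num
  have hlog24 : Real.log 24 ≤ 4 := by
    have h1 : (24 : ℝ) ≤ Real.exp 4 := by
      have h2 : (2.7 : ℝ) ≤ Real.exp 1 := by linarith [Real.exp_one_gt_d9]
      have h3 : Real.exp 4 = Real.exp 1 ^ 4 := by rw [← Real.exp_nat_mul]; norm_num
      rw [h3]
      calc (24 : ℝ) ≤ 2.7 ^ 4 := by norm_num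
        _ ≤ Real.exp 1 ^ 4 := pow_le_pow_left₀ (by norm_num) h2 4
    calc Real.log 24 ≤ Real.log (Real.exp 4) := Real.log_le_log (by norm_num) h1
      _ = 4 := Real.log_exp 4
  have hexp : 24 * (m : ℝ) ^ (2 * β) = Real.exp (Real.log 24 + Real.log m * (2 * β)) := by
    rw [Real.exp_add, Real.exp_log (by norm_num : (0 : ℝ) < 24), Real.rpow_def_of_pos hm0]
  rw [hexp]
  apply Real.exp_le_exp.mpr
  have hA : Real.log m * (2 * β) ≤ 20 * (m : ℝ) ^ (9 / 10 : ℝ) := by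
    calc Real.log m * (2 * β) ≤ (10 * (m : ℝ) ^ (1 / 10 : ℝ)) * (2 * (m : ℝ) ^ (4 / 5 : ℝ)) := by
          refine mul_le_mul ?_ (by linarith) (by linarith) (by positivity)
          linarith
      _ = 20 * ((m : ℝ) ^ (4 / 5 : ℝ) * (m : ℝ) ^ (1 / 10 : ℝ)) := by ring
      _ = 20 * (m : ℝ) ^ (9 / 10 : ℝ) := by rw [hprod1]
  have hB : 24 * (m : ℝ) ^ (9 / 10 : ℝ) ≤ d₀ * m / 2 := by
    have h1 : 48 ≤ d₀ * (m : ℝ) ^ (1 / 10 : ℝ) := by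
      have := (div_le_iff₀ h0).mp h10
      linarith
    have h2 : 0 ≤ (m : ℝ) ^ (9 / 10 : ℝ) := by linarith
    have h3 : 48 * (m : ℝ) ^ (9 / 10 : ℝ) ≤ d₀ * (m : ℝ) ^ (1 / 10 : ℝ) * (m : ℝ) ^ (9 / 10 : ℝ) :=
      mul_le_mul_of_nonneg_right h1 h2
    have h4 : d₀ * (m : ℝ) ^ (1 / 10 : ℝ) * (m : ℝ) ^ (9 / 10 : ℝ) = d₀ * m := by
      rw [mul_assoc, mul_comm ((m : ℝ) ^ (1 / 10 : ℝ)), hprod2]
    linarith
  linarith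

/-- V5 -/
theorem absorb {d : ℝ} (hd : 0 < d) : ∃ G : ℕ, 1 ≤ G ∧ ∀ q : ℕ, 16 ≤ q → ∀ m : ℕ, G ≤ m →
    ∀ β : ℝ, 1 ≤ β → β ≤ (m : ℝ) ^ (4 / 5 : ℝ) →
    13 * (q : ℝ) ^ (-(2 * d * m / β)) ≤ (q : ℝ) ^ (-(d * m / β)) := by
  obtain ⟨G0, hG0⟩ := exists_nat_ge ((1 / d) ^ (5 : ℕ))
  refine ⟨max 1 G0, le_max_left _ _, fun q hq m hm β hβ1 hβ => ?_⟩
  have hm1 : (1 : ℝ) ≤ m := by exact_mod_cast (le_max_left _ _).trans hm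
  have hm2 : (1 / d) ^ (5 : ℕ) ≤ (m : ℝ) := hG0.trans (by exact_mod_cast (le_max_right _ _).trans hm)
  have hm0 : (0 : ℝ) < m := by linarith
  have hq1 : (16 : ℝ) ≤ q := by exact_mod_cast hq
  have hq0 : (0 : ℝ) < q := by linarith
  have hβ0 : 0 < β := by linarith
  have h5 : 1 / d ≤ (m : ℝ) ^ (1 / 5 : ℝ) := by
    have h1 : (0 : ℝ) ≤ 1 / d := by positivity
    calc 1 / d = ((1 / d) ^ (5 : ℕ)) ^ (1 / 5 : ℝ) := by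
          rw [← Real.rpow_natCast, ← Real.rpow_mul h1]; norm_num
      _ ≤ (m : ℝ) ^ (1 / 5 : ℝ) := Real.rpow_le_rpow (by positivity) hm2 (by norm_num)
  have hprod : (m : ℝ) ^ (1 / 5 : ℝ) * (m : ℝ) ^ (4 / 5 : ℝ) = m := by
    rw [← Real.rpow_add hm0]; norm_num
  have hexp : 1 ≤ d * m / β := by
    rw [le_div_iff₀ hβ0, one_mul]
    have h1 : 1 ≤ d * (m : ℝ) ^ (1 / 5 : ℝ) := by
      have := (div_le_iff₀ hd).mp h5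
      linarith
    calc β ≤ (m : ℝ) ^ (4 / 5 : ℝ) := hβ
      _ = 1 * (m : ℝ) ^ (4 / 5 : ℝ) := (one_mul _).symm
      _ ≤ (d * (m : ℝ) ^ (1 / 5 : ℝ)) * (m : ℝ) ^ (4 / 5 : ℝ) :=
          mul_le_mul_of_nonneg_right h1 (by positivity)
      _ = d * m := by rw [mul_assoc, hprod]
  have h13 : (13 : ℝ) ≤ (q : ℝ) ^ (d * m / β) := by
    calc (13 : ℝ) ≤ (q : ℝ) ^ (1 : ℝ) := by rw [Real.rpow_one]; linarith
      _ ≤ (q : ℝ) ^ (d * m / β) := Real.rpow_le_rpow_of_exponent_le (by linarith) hexp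
  have hsplit : (q : ℝ) ^ (-(d * m / β)) = (q : ℝ) ^ (d * m / β) * (q : ℝ) ^ (-(2 * d * m / β)) := by
    rw [← Real.rpow_add hq0]
    congr 1
    ring
  rw [hsplit]
  exact mul_le_mul_of_nonneg_right h13 (by positivity)

end Pool.Agent.Helper85.XV
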